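import Pool.Agent.H224R2.Mah.Defs

/-!
# From finite families to bodies (task F2)
-/

namespace Pool.Agent.H224R2.Mah

open MeasureTheory Set Filter Topology
open scoped ENNReal RealInnerProductSpace

namespace F2

/-- zero is an interior point of a symmetric convex body -/
theorem zero_interior {n : ℕ} (K : Set (EuclideanSpace ℝ (Fin n))) (hK : Convex ℝ K)
    (hi : (interior K).Nonempty) (hs : ∀ x ∈ K, -x ∈ K) :
    (0 : EuclideanSpace ℝ (Fin n)) ∈ interior K := by
  obtain ⟨x, hx⟩ := hi
  have h1 : -x ∈ interior K := by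
    have hneg : -K = K := by
      ext y
      rw [Set.mem_neg]
      exact ⟨fun h => by simpa using hs _ h, fun h => hs _ h⟩
    have h2 : -x ∈ -interior K := by
      rw [Set.mem_neg, neg_neg]
      exact hx
    have h3 : -interior K = interior (-K) := (Homeomorph.neg _).image_interior K |> fun h => by
      simpa [Set.image_neg_eq_neg] using h
    rw [h3, hneg] at h2
    exact h2
  have h4 := hK.interior hx h1 (a := 1 / 2) (b := 1 / 2) (by norm_num) (by norm_num) (by norm_num)
  simpa using h4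

theorem bipolar {n : ℕ} (K : Set (EuclideanSpace ℝ (Fin n))) (hK : Convex ℝ K) (hc : IsCompact K)
    (h0 : (0 : EuclideanSpace ℝ (Fin n)) ∈ K) (y : EuclideanSpace ℝ (Fin n))
    (hy : ∀ v ∈ polar K, ⟪y, v⟫ ≤ 1) : y ∈ K := by
  by_contra hyK
  obtain ⟨f, u, h1, h2⟩ := geometric_hahn_banach_closed_point hK hc.isClosed hyK
  have hu : 0 < u := by
    have := h1 0 h0
    simpa using this
  set v := (InnerProductSpace.toDual ℝ (EuclideanSpace ℝ (Fin n))).symm f with hv
  have hf : ∀ x, f x = ⟪x, v⟫ := by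
    intro x
    rw [real_inner_comm, hv, InnerProductSpace.toDual_symm_apply]
  have h3 : u⁻¹ • v ∈ polar K := by
    intro x hx
    rw [inner_smul_right, ← hf, inv_mul_le_iff₀ hu, mul_one]
    exact (h1 x hx).le
  have h4 := hy _ h3
  rw [inner_smul_right, ← hf, inv_mul_le_iff₀ hu, mul_one] at h4
  linarith

theorem inner_ofLp {n : ℕ} (x y : EuclideanSpace ℝ (Fin n)) :
    ⟪x, y⟫ = ∑ k, y.ofLp k * x.ofLp k := by
  rw [PiLp.inner_apply]
  rfl

end F2

theorem F2_body (n : ℕ)
    (hfam : ∀ (κ : Type) (_ : Fintype κ) (b : Fin n → Fin n → ℝ) (_ : (Matrix.of b).det ≠ 0)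
      (c : κ → Fin n → ℝ) (L : Set (Fin n → ℝ)) (_ : Convex ℝ L) (_ : L.Nonempty)
      (_ : ∀ v ∈ L, -v ∈ L) (_ : ∀ j, b j ∈ L) (_ : ∀ j, c j ∈ L),
      ENNReal.ofReal (4 ^ n / n.factorial) ≤ volume (QQ (Sum.elim b c)) * volume L)
    (K : Set (EuclideanSpace ℝ (Fin n))) (hK : Convex ℝ K) (hc : IsCompact K)
    (hi : (interior K).Nonempty) (hs : ∀ x ∈ K, -x ∈ K) :
    ENNReal.ofReal (4 ^ n / n.factorial) ≤ volume K * volume (polar K) := by
  have h0 := F2.zero_interior K hK hi hs
  have h0K : (0 : EuclideanSpace ℝ (Fin n)) ∈ K := interior_subset h0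
  -- the polar body in coordinates
  set L : Set (Fin n → ℝ) := {v | WithLp.toLp 2 v ∈ polar K} with hL
  have hLconv : Convex ℝ L := by
    intro v hv w hw s t hs' ht' hst x hx
    rw [WithLp.toLp_add, WithLp.toLp_smul, WithLp.toLp_smul, inner_add_right, inner_smul_right,
      inner_smul_right]
    have h1 := hv x hx
    have h2 := hw x hx
    nlinarith
  have hL0 : (0 : Fin n → ℝ) ∈ L := by
    intro x _
    simp
  have hLs : ∀ v ∈ L, -v ∈ L := by
    intro v hv x hx
    have := hv (-x) (hs x hx)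
    rw [inner_neg_left] at this
    rw [WithLp.toLp_neg, inner_neg_right]
    exact this
  have hvol : ∀ T : Set (EuclideanSpace ℝ (Fin n)),
      volume {v : Fin n → ℝ | WithLp.toLp 2 v ∈ T} = volume T := by
    intro T
    exact (EuclideanSpace.volume_preserving_symm_measurableEquiv_toLp
      (Fin n)).symm.measure_preimage_equiv T
  have hLvol : volume L = volume (polar K) := hvol _
  -- radius bounds
  obtain ⟨R, hR0, hR⟩ : ∃ R : ℝ, 0 < R ∧ ∀ x ∈ K, ‖x‖ ≤ R := by
    obtain ⟨R, hR⟩ := hc.isBounded.exists_norm_le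
    exact ⟨max R 1, lt_max_of_lt_right one_pos, fun x hx => (hR x hx).trans (le_max_left _ _)⟩
  obtain ⟨r, hr0, hr⟩ : ∃ r : ℝ, 0 < r ∧ ∀ x : EuclideanSpace ℝ (Fin n), ‖x‖ ≤ r → x ∈ K := by
    obtain ⟨r, hr0, hr⟩ := Metric.isOpen_iff.1 isOpen_interior 0 h0
    refine ⟨r / 2, by positivity, fun x hx => interior_subset (hr ?_)⟩
    rw [mem_ball_zero_iff]
    linarith
  have hLfin : volume L ≠ ∞ := by
    rw [hLvol]
    refine (Bornology.IsBounded.measure_lt_top ?_).ne
    refine (Metric.isBounded_iff_subset_closedBall 0).2 ⟨r⁻¹, fun y hy => ?_⟩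
    rw [mem_closedBall_zero_iff]
    by_cases hy0 : y = 0
    · rw [hy0, norm_zero]
      positivity
    have hyn : 0 < ‖y‖ := norm_pos_iff.2 hy0
    have h1 := hy ((r / ‖y‖) • y) (hr _ (by
      rw [norm_smul, norm_div, norm_norm, Real.norm_of_nonneg hr0.le,
        div_mul_cancel₀ _ hyn.ne']))
    rw [inner_smul_left, real_inner_self_eq_norm_sq] at h1
    simp only [conj_trivial] at h1
    have h2 : r / ‖y‖ * ‖y‖ ^ 2 = r * ‖y‖ := by
      field_simp
    rw [h2] at h1
    rw [← one_div, le_div_iff₀ hr0]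
    linarith
  -- the basis
  set b : Fin n → Fin n → ℝ := fun k => Pi.single k R⁻¹ with hb
  have hbdet : (Matrix.of b).det ≠ 0 := by
    have h1 : Matrix.of b = Matrix.diagonal fun _ => R⁻¹ := by
      ext i j
      rw [Matrix.of_apply, hb, Matrix.diagonal_apply]
      change (Pi.single i R⁻¹ : Fin n → ℝ) j = _
      rw [Pi.single_apply]
      simp only [eq_comm]
    rw [h1, Matrix.det_diagonal]
    exact Finset.prod_ne_zero_iff.2 fun _ _ => (inv_pos.2 hR0).ne'
  have hbL : ∀ j, b j ∈ L := by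
    intro j x hx
    rw [F2.inner_ofLp]
    have h1 : ∑ k, (WithLp.toLp 2 (b j)).ofLp k * x.ofLp k = R⁻¹ * x.ofLp j := by
      rw [Finset.sum_eq_single j]
      · simp [hb]
      · intro k _ hk
        simp [hb, hk]
      · simp
    rw [h1, inv_mul_le_iff₀ hR0, mul_one]
    have h2 : |x.ofLp j| ≤ ‖x‖ := by
      have := PiLp.norm_apply_le x j
      simpa using this
    exact (le_abs_self _).trans (h2.trans (hR x hx))
  -- the dense sequence
  have : Nonempty L := ⟨⟨0, hL0⟩⟩
  obtain ⟨d, hd⟩ := TopologicalSpace.exists_dense_seq L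
  set Q : ℕ → Set (Fin n → ℝ) := fun N => QQ (Sum.elim b fun i : Fin N => (d i : Fin n → ℝ))
    with hQ
  have hQanti : Antitone Q := by
    intro N M hNM y hy j
    rcases j with j | j
    · exact hy (Sum.inl j)
    · exact hy (Sum.inr (Fin.castLE hNM j))
  have hQcl : ∀ N, IsClosed (Q N) := by
    intro N
    have : Q N = ⋂ j, {y : Fin n → ℝ |
        |∑ k, (Sum.elim b fun i : Fin N => (d i : Fin n → ℝ)) j k * y k| ≤ 1} := by
      ext y
      simp only [hQ, QQ, Set.mem_iInter, Set.mem_ofPred_eq]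
    rw [this]
    refine isClosed_iInter fun j => isClosed_le ?_ continuous_const
    fun_prop
  have hQfin : volume (Q 0) ≠ ∞ := by
    have h1 : Q 0 ⊆ Set.Icc (fun _ => -R) (fun _ => R) := by
      intro y hy
      have h2 : ∀ k, |y k| ≤ R := by
        intro k
        have h3 := hy (Sum.inl k)
        simp only [Sum.elim_inl] at h3
        rw [Finset.sum_eq_single k] at h3
        · simp only [hb, Pi.single_eq_same] at h3
          rw [abs_mul, abs_of_pos (inv_pos.2 hR0), inv_mul_le_iff₀ hR0, mul_one] at h3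
          exact h3
        · intro k' _ hk
          simp [hb, hk]
        · simp
      exact ⟨fun k => (abs_le.1 (h2 k)).1, fun k => (abs_le.1 (h2 k)).2⟩
    exact ((measure_mono h1).trans_lt isCompact_Icc.measure_lt_top).ne
  have hQK : ⋂ N, Q N ⊆ {v : Fin n → ℝ | WithLp.toLp 2 v ∈ K} := by
    intro y hy
    rw [Set.mem_iInter] at hy
    refine F2.bipolar K hK hc h0K _ fun v hv => ?_
    have hvL : v.ofLp ∈ L := by
      rw [hL, Set.mem_ofPred_eq]
      exact hv
    have h1 : ∀ w : L, ∑ k, (w : Fin n → ℝ) k * y k ≤ 1 := by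
      intro w
      refine hd.induction_on (p := fun w : L => ∑ k, (w : Fin n → ℝ) k * y k ≤ 1) w ?_ ?_
      · refine isClosed_le ?_ continuous_const
        exact continuous_finsetSum _ fun k _ =>
          ((continuous_apply k).comp continuous_subtype_val).mul continuous_const
      · intro i
        have h2 := hy (i + 1) (Sum.inr (Fin.last i))
        simp only [Sum.elim_inr, Fin.val_last] at h2
        exact (abs_le.1 h2).2
    have h3 := h1 ⟨v.ofLp, hvL⟩
    rw [F2.inner_ofLp]
    exact h3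
  have hlim : Tendsto (fun N => volume (Q N) * volume L) atTop
      (𝓝 (volume (⋂ N, Q N) * volume L)) :=
    ENNReal.Tendsto.mul_const (tendsto_measure_iInter_atTop
      (fun N => (hQcl N).measurableSet.nullMeasurableSet) hQanti ⟨0, hQfin⟩) (Or.inr hLfin)
  have h1 : ENNReal.ofReal (4 ^ n / n.factorial) ≤ volume (⋂ N, Q N) * volume L :=
    ge_of_tendsto' hlim fun N =>
      hfam (Fin N) inferInstance b hbdet _ L hLconv ⟨0, hL0⟩ hLs hbL fun j => (d j).2
  refine h1.trans ?_
  rw [hLvol]
  gcongr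
  rw [← hvol K]
  exact measure_mono hQK

end Pool.Agent.H224R2.Mah
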